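import Pool.Agent.R7.SrCopies.Dens

/-!
# MP_3f4edd_co — Monochromatic copies of `S_r` in colourings of `S_n`

Words `x_0, …, x_{r-1}` (nonempty, partitioning the letters) such that all concatenations
`x_{σ(0)} … x_{σ(r-1)}`, for the unimodal permutations `σ`, lie in a prescribed dense set of
permutations, resp. get one colour.
-/

set_option autoImplicit false

namespace Pool.Agent.Results.MP_3f4edd_co.DenseUnimodal

open List Pool.Agent.R7.SrCopies

/-- `σ` has no valley: there are no positions `i < j < k` with `σ j < σ i` and `σ j < σ k`;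
i.e. the sequence `σ 0, σ 1, …` first increases and then decreases. -/
def Unimodal {r : ℕ} (σ : Equiv.Perm (Fin r)) : Prop :=
  ∀ i j k : Fin r, i < j → j < k → ¬ (σ j < σ i ∧ σ j < σ k)

lemma endBuilt_map {β γ : Type*} (f : β → γ) {xs ys : List β} (h : EndBuilt xs ys) :
    EndBuilt (xs.map f) (ys.map f) := by
  induction h with
  | nil => exact EndBuilt.nil
  | left a _ ih => exact EndBuilt.left (f a) ih
  | right a _ ih =>
    rw [List.map_append]
    exact EndBuilt.right (f a) ih

lemma endBuilt_range (n : ℕ) : ∀ (s : ℕ) (L : List ℕ), L ~ List.range' s n →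
    (∀ a b c : ℕ, [a, b, c] <+ L → ¬ (b < a ∧ b < c)) → EndBuilt (List.range' s n) L := by
  induction n with
  | zero =>
    intro s L hL _
    have : L = [] := by simpa using hL
    rw [this]
    exact EndBuilt.nil
  | succ n ih =>
    intro s L hL hv
    rw [List.range'_succ] at hL ⊢
    have hs : s ∈ L := hL.mem_iff.mpr (by simp)
    obtain ⟨A, B, rfl⟩ := List.append_of_mem hs
    have hnd : (A ++ s :: B).Nodup := by
      rw [hL.nodup_iff, ← List.range'_succ]
      exact List.nodup_range'
    have hge : ∀ a ∈ A ++ s :: B, s ≤ a := by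
      intro a ha
      have := hL.mem_iff.mp ha
      rw [← List.range'_succ, List.mem_range'_1] at this
      exact this.1
    have hperm : A ++ B ~ List.range' (s + 1) n := by
      have h1 : s :: (A ++ B) ~ s :: List.range' (s + 1) n := (List.perm_middle.symm).trans hL
      exact (List.perm_cons s).mp h1
    have hsub : A ++ B <+ A ++ s :: B := by
      exact (List.Sublist.refl A).append (List.sublist_cons_self s B)
    have hrec := ih (s + 1) (A ++ B) hperm (fun a b c h => hv a b c (h.trans hsub))
    rcases A with _ | ⟨a, A⟩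
    · exact EndBuilt.left s hrec
    · rcases B with _ | ⟨b, B⟩
      · rw [List.append_nil] at hrec
        exact EndBuilt.right s hrec
      · exfalso
        have hnd' := List.nodup_append.mp hnd
        have hane : a ≠ s := by
          exact hnd'.2.2 a (by simp) s (by simp)
        have hbne : s ≠ b := by
          have h3 := (List.nodup_cons.mp hnd'.2.1).1
          intro h
          exact h3 (by rw [h]; simp)
        have hag := hge a (by simp)
        have hbg := hge b (by simp)
        refine hv a s b ?_ ⟨by omega, by omega⟩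
        have h5 : [a] <+ a :: A := by simp
        have h6 : [s, b] <+ s :: b :: B := by simp
        exact h5.append h6

lemma endBuilt_perm {β : Type*} {r : ℕ} (x : Fin r → β) (σ : Equiv.Perm (Fin r))
    (hσ : Unimodal σ) : EndBuilt (List.ofFn x) (List.ofFn (fun i => x (σ i))) := by
  rcases Nat.eq_zero_or_pos r with hr | hr
  · subst hr
    simp only [List.ofFn_zero]
    exact EndBuilt.nil
  · let f : ℕ → β := fun a => x ⟨a % r, Nat.mod_lt _ hr⟩
    have h1 : List.ofFn x = (List.range' 0 r).map f := by
      apply List.ext_getElem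
      · simp
      · intro i h1 h2
        simp only [List.getElem_ofFn, List.getElem_map, List.getElem_range', f]
        congr 1
        apply Fin.ext
        simp only [List.length_ofFn] at h1
        simp [Nat.mod_eq_of_lt h1]
    have h2 : List.ofFn (fun i => x (σ i)) = (List.ofFn (fun i => (σ i).val)).map f := by
      apply List.ext_getElem
      · simp
      · intro i h1 h2
        simp only [List.getElem_ofFn, List.getElem_map, f]
        congr 1
        apply Fin.ext
        simp [Nat.mod_eq_of_lt]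
    rw [h1, h2]
    apply endBuilt_map
    apply endBuilt_range
    · rw [List.perm_ext_iff_of_nodup]
      · intro a
        rw [List.mem_ofFn, List.mem_range'_1]
        constructor
        · rintro ⟨i, rfl⟩
          exact ⟨Nat.zero_le _, by simp⟩
        · rintro ⟨_, ha⟩
          refine ⟨σ.symm ⟨a, by simpa using ha⟩, by simp⟩
      · rw [List.nodup_ofFn]
        intro i j hij
        exact σ.injective (Fin.ext hij)
      · exact List.nodup_range'
    · intro a b c habc
      rw [List.sublist_iff_exists_fin_orderEmbedding_get_eq] at habc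
      obtain ⟨g, hg⟩ := habc
      have hlen : (List.ofFn (fun i => (σ i).val)).length = r := by simp
      have e0 := hg ⟨0, by simp⟩
      have e1 := hg ⟨1, by simp⟩
      have e2 := hg ⟨2, by simp⟩
      simp only [List.get_eq_getElem, List.getElem_ofFn, List.getElem_cons_zero,
        List.getElem_cons_succ] at e0 e1 e2
      have l01 : (g ⟨0, by simp⟩) < (g ⟨1, by simp⟩) := by
        rw [OrderEmbedding.lt_iff_lt]; simp
      have l12 : (g ⟨1, by simp⟩) < (g ⟨2, by simp⟩) := by
        rw [OrderEmbedding.lt_iff_lt]; simp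
      have := hσ ⟨(g ⟨0, by simp⟩).val, lt_of_lt_of_eq (g ⟨0, by simp⟩).isLt hlen⟩
        ⟨(g ⟨1, by simp⟩).val, lt_of_lt_of_eq (g ⟨1, by simp⟩).isLt hlen⟩
        ⟨(g ⟨2, by simp⟩).val, lt_of_lt_of_eq (g ⟨2, by simp⟩).isLt hlen⟩ l01 l12
      intro hcon
      apply this
      rw [Fin.lt_def, Fin.lt_def, ← e0, ← e1, ← e2]
      exact hcon

lemma P_card {n : ℕ} : (P (List.finRange n)).card = n.factorial := by
  rw [P, List.toFinset_card_of_nodup, List.length_permutations, List.length_finRange]
  rw [List.nodup_permutations_iff]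
  exact List.nodup_finRange n

lemma mem_P_iff {n : ℕ} (w : List (Fin n)) :
    w ∈ P (List.finRange n) ↔ w.Nodup ∧ w.length = n := by
  rw [mem_P]
  constructor
  · intro h
    exact ⟨h.nodup_iff.mpr (List.nodup_finRange n), by rw [h.length_eq, List.length_finRange]⟩
  · rintro ⟨h1, h2⟩
    rw [List.perm_ext_iff_of_nodup h1 (List.nodup_finRange n)]
    intro a
    simp only [List.mem_finRange, iff_true]
    have hc : w.toFinset = Finset.univ := by
      rw [← Finset.card_eq_iff_eq_univ, List.toFinset_card_of_nodup h1, h2, Fintype.card_fin]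
    have : a ∈ w.toFinset := by rw [hc]; exact Finset.mem_univ a
    simpa using this

/-- the list form for a dense set of words -/
lemma dense_list (r m : ℕ) (hr : 1 ≤ r) (hm : 1 ≤ m) (n : ℕ) (hn : N (r - 1) m ≤ n)
    (E : Finset (List (Fin n))) (hE : ∀ w ∈ E, w.Nodup ∧ w.length = n)
    (hc : n.factorial ≤ m * E.card) :
    ∃ xs : List (List (Fin n)), xs.length = r ∧ (∀ x ∈ xs, x ≠ []) ∧
      xs.flatten.Nodup ∧ xs.flatten.length = n ∧ ∀ ys, EndBuilt xs ys → ys.flatten ∈ E := by
  classical
  have hfil : (P (List.finRange n)).filter (fun w => w ∈ E) = E := by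
    ext w
    rw [Finset.mem_filter, mem_P_iff]
    exact ⟨fun h => h.2, fun h => ⟨hE w h, h⟩⟩
  obtain ⟨xs, h1, h2, h3, h4⟩ := dens (r - 1) m hm (List.finRange n)
    (by rw [List.length_finRange]; exact hn) (fun w => w ∈ E) (by rw [hfil, P_card]; exact hc)
  have h5 := (mem_P_iff xs.flatten).mp (mem_P.mpr h3)
  exact ⟨xs, by omega, h2, h5.1, h5.2, h4⟩

/-- **Main result.** -/
theorem result :
    -- density form
    (∀ r m : ℕ, 1 ≤ r → 1 ≤ m → ∃ n₀ : ℕ, ∀ n : ℕ, n₀ ≤ n → ∀ E : Finset (List (Fin n)),
      (∀ w ∈ E, w.Nodup ∧ w.length = n) → n.factorial ≤ m * E.card →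
      ∃ x : Fin r → List (Fin n),
        (∀ i, x i ≠ []) ∧
        (List.ofFn x).flatten.Nodup ∧
        (List.ofFn x).flatten.length = n ∧
        ∀ σ : Equiv.Perm (Fin r), Unimodal σ →
          (List.ofFn (fun i => x (σ i))).flatten ∈ E) ∧
    -- colouring form
    (∀ k r : ℕ, 1 ≤ r → ∃ n₀ : ℕ, ∀ n : ℕ, n₀ ≤ n → ∀ c : List (Fin n) → Fin k,
      ∃ x : Fin r → List (Fin n),
        (∀ i, x i ≠ []) ∧
        (List.ofFn x).flatten.Nodup ∧
        (List.ofFn x).flatten.length = n ∧
        ∀ σ τ : Equiv.Perm (Fin r), Unimodal σ → Unimodal τ →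
          c (List.ofFn (fun i => x (σ i))).flatten =
            c (List.ofFn (fun i => x (τ i))).flatten) ∧
    -- the case `r = 3`, written out: four of the six concatenations
    (∀ k : ℕ, ∃ n₀ : ℕ, ∀ n : ℕ, n₀ ≤ n → ∀ c : List (Fin n) → Fin k,
      ∃ x y z : List (Fin n), x ≠ [] ∧ y ≠ [] ∧ z ≠ [] ∧
        (x ++ y ++ z).Nodup ∧ (x ++ y ++ z).length = n ∧
        c (x ++ y ++ z) = c (x ++ z ++ y) ∧ c (x ++ y ++ z) = c (y ++ z ++ x) ∧
        c (x ++ y ++ z) = c (z ++ y ++ x)) := by
  have key : ∀ r m : ℕ, 1 ≤ r → 1 ≤ m → ∃ n₀ : ℕ, ∀ n : ℕ, n₀ ≤ n → ∀ E : Finset (List (Fin n)),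
      (∀ w ∈ E, w.Nodup ∧ w.length = n) → n.factorial ≤ m * E.card →
      ∃ x : Fin r → List (Fin n),
        (∀ i, x i ≠ []) ∧
        (List.ofFn x).flatten.Nodup ∧
        (List.ofFn x).flatten.length = n ∧
        ∀ σ : Equiv.Perm (Fin r), Unimodal σ →
          (List.ofFn (fun i => x (σ i))).flatten ∈ E := by
    intro r m hr hm
    refine ⟨N (r - 1) m, ?_⟩
    intro n hn E hE hc
    obtain ⟨xs, h1, h2, h3, h4, h5⟩ := dense_list r m hr hm n hn E hE hc
    subst h1
    refine ⟨fun i => xs[i], ?_, ?_, ?_, ?_⟩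
    · intro i
      exact h2 _ (List.getElem_mem _)
    · simpa using h3
    · simpa using h4
    · intro σ hσ
      apply h5
      have := endBuilt_perm (fun i : Fin xs.length => xs[i]) σ hσ
      simpa using this
  have keyc : ∀ k r : ℕ, 1 ≤ r → ∃ n₀ : ℕ, ∀ n : ℕ, n₀ ≤ n → ∀ c : List (Fin n) → Fin k,
      ∃ x : Fin r → List (Fin n),
        (∀ i, x i ≠ []) ∧
        (List.ofFn x).flatten.Nodup ∧
        (List.ofFn x).flatten.length = n ∧
        ∃ col : Fin k, ∀ σ : Equiv.Perm (Fin r), Unimodal σ →
          c (List.ofFn (fun i => x (σ i))).flatten = col := by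
    intro k r hr
    rcases Nat.eq_zero_or_pos k with hk | hk
    · subst hk
      exact ⟨0, fun n _ c => (c []).elim0⟩
    · obtain ⟨n₀, h⟩ := key r k hr hk
      refine ⟨n₀, ?_⟩
      intro n hn c
      classical
      -- most popular colour
      obtain ⟨col, hcol⟩ : ∃ col : Fin k, n.factorial ≤
          k * ((P (List.finRange n)).filter (fun w => c w = col)).card := by
        by_contra hcon
        push Not at hcon
        have h1 : ∑ col : Fin k, k * ((P (List.finRange n)).filter (fun w => c w = col)).card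
            < ∑ _col : Fin k, n.factorial :=
          Finset.sum_lt_sum_of_nonempty ⟨⟨0, hk⟩, Finset.mem_univ _⟩ (fun i _ => hcon i)
        rw [← Finset.mul_sum, Finset.sum_const, Finset.card_univ, Fintype.card_fin,
          smul_eq_mul, ← Finset.card_eq_sum_card_fiberwise (fun w _ => Finset.mem_coe.mpr
            (Finset.mem_univ (c w))), P_card] at h1
        exact lt_irrefl _ h1
      obtain ⟨x, h1, h2, h3, h4⟩ := h n hn
        ((P (List.finRange n)).filter (fun w => c w = col))
        (fun w hw => (mem_P_iff w).mp (Finset.mem_filter.mp hw).1) hcol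
      exact ⟨x, h1, h2, h3, col, fun σ hσ => (Finset.mem_filter.mp (h4 σ hσ)).2⟩
  refine ⟨key, ?_, ?_⟩
  · intro k r hr
    obtain ⟨n₀, h⟩ := keyc k r hr
    refine ⟨n₀, fun n hn c => ?_⟩
    obtain ⟨x, h1, h2, h3, col, h4⟩ := h n hn c
    exact ⟨x, h1, h2, h3, fun σ τ hσ hτ => (h4 σ hσ).trans (h4 τ hτ).symm⟩
  · intro k
    obtain ⟨n₀, h⟩ := keyc k 3 (by norm_num)
    refine ⟨n₀, fun n hn c => ?_⟩
    obtain ⟨x, h1, h2, h3, col, h4⟩ := h n hn c
    have u1 : Unimodal (1 : Equiv.Perm (Fin 3)) := by unfold Unimodal; decide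
    have u2 : Unimodal (Equiv.swap (1 : Fin 3) 2) := by unfold Unimodal; decide
    have u3 : Unimodal (finRotate 3) := by unfold Unimodal; decide
    have u4 : Unimodal (Equiv.swap (0 : Fin 3) 2) := by unfold Unimodal; decide
    have e1 := h4 _ u1
    have e2 := h4 _ u2
    have e3 := h4 _ u3
    have e4 := h4 _ u4
    have s20 : (Equiv.swap (1 : Fin 3) 2) 0 = 0 := by decide
    have s21 : (Equiv.swap (1 : Fin 3) 2) 1 = 2 := by decide
    have s22 : (Equiv.swap (1 : Fin 3) 2) 2 = 1 := by decide
    have s30 : (finRotate 3) 0 = 1 := by decide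
    have s31 : (finRotate 3) 1 = 2 := by decide
    have s32 : (finRotate 3) 2 = 0 := by decide
    have s40 : (Equiv.swap (0 : Fin 3) 2) 0 = 2 := by decide
    have s41 : (Equiv.swap (0 : Fin 3) 2) 1 = 1 := by decide
    have s42 : (Equiv.swap (0 : Fin 3) 2) 2 = 0 := by decide
    simp only [List.ofFn_succ, List.ofFn_zero, Equiv.Perm.coe_one, id, Fin.succ_zero_eq_one,
      Fin.succ_one_eq_two, List.flatten_cons, List.flatten_nil, List.append_nil,
      s20, s21, s22, s30, s31, s32, s40, s41, s42] at e1 e2 e3 e4 h2 h3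
    refine ⟨x 0, x 1, x 2, h1 0, h1 1, h1 2, ?_, ?_, ?_, ?_, ?_⟩
    · rw [List.append_assoc]; exact h2
    · rw [List.append_assoc]; exact h3
    · rw [List.append_assoc, List.append_assoc]; exact e1.trans e2.symm
    · rw [List.append_assoc, List.append_assoc]; exact e1.trans e3.symm
    · rw [List.append_assoc, List.append_assoc]; exact e1.trans e4.symm

end Pool.Agent.Results.MP_3f4edd_co.DenseUnimodal
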